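import Pool.Agent.helper80.SG.Spec2
import Pool.Agent.helper34.SV.BCA

/-!
# Project sq: (MP_b5a345_ag), module BCM: the drop lemma for several types of conditions
-/

set_option autoImplicit false
set_option linter.unusedSectionVars false

namespace Pool.Agent.SG

open MvPolynomial Module Pool.Agent.SV

section

variable {τ E P J : Type} [Fintype τ] [DecidableEq τ] [AddCommGroup E] [Module ℂ E]
  [AddCommGroup P] [Module ℂ P]

theorem BCM_mono {Φ : τ → P → E →ₗ[ℂ] (J → ℂ)} {x : τ → ℕ → P} {R R' : τ → Finset ℕ}
    (h : ∀ t, R t ⊆ R' t) : KerS Φ R' x ≤ KerS Φ R x := by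
  intro v hv
  rw [mem_KerS] at hv ⊢
  exact fun t i hi => hv t i (h t hi)

/-- the dimension of a kernel is at least the minimal one -/
theorem BCM_ge (Φ : τ → P → E →ₗ[ℂ] (J → ℂ)) (x : τ → ℕ → P) (R : τ → Finset ℕ) :
    dmM Φ (fun t => (R t).card) ≤ finrank ℂ ↥(KerS Φ R x) := by
  classical
  let y : τ → ℕ → P := fun t i =>
    if h : i < (R t).card then x t ((R t).orderEmbOfFin rfl ⟨i, h⟩) else 0
  have hy : ∀ t i (h : i < (R t).card), y t i = x t ((R t).orderEmbOfFin rfl ⟨i, h⟩) :=
    fun t i h => dif_pos h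
  have h1 : KerS Φ R x = KerS Φ (fun t => Finset.range ((R t).card)) y := by
    ext v
    rw [mem_KerS, mem_KerS]
    constructor
    · intro hv t i hi
      have hi' := Finset.mem_range.mp hi
      rw [hy t i hi']
      exact hv t _ (Finset.orderEmbOfFin_mem (R t) rfl _)
    · intro hv t i hi
      have hi2 : i ∈ Set.range ((R t).orderEmbOfFin rfl) := by
        rw [Finset.range_orderEmbOfFin]
        exact hi
      obtain ⟨j, rfl⟩ := hi2
      have h2 := hv t j.1 (Finset.mem_range.mpr j.2)
      rw [hy t j.1 j.2] at h2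
      exact h2
  rw [h1]
  exact dmM_le Φ (fun t => (R t).card) y

theorem BCM_card [Module.Finite ℂ E] {Φ : τ → P → E →ₗ[ℂ] (J → ℂ)} {n : ℕ}
    {x : τ → ℕ → P} (h : UniM Φ n x) (o : τ) (R : τ → Finset ℕ)
    (hR : ∀ t, R t ⊆ Finset.range n) (i₀ : ℕ) (hi₀ : i₀ ∈ Finset.range n) (ho : i₀ ∉ R o) :
    finrank ℂ ↥((KerS Φ R x).map (Φ o (x o i₀))) = ccM Φ o (fun t => (R t).card) := by
  have h1 := BCA_rank (KerS Φ R x) (Φ o (x o i₀))
  have h2 : KerS Φ R x ⊓ LinearMap.ker (Φ o (x o i₀)) =
      KerS Φ (Function.update R o (insert i₀ (R o))) x := by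
    ext v
    rw [Submodule.mem_inf, mem_KerS, mem_KerS, LinearMap.mem_ker]
    constructor
    · rintro ⟨hv1, hv2⟩ t i hi
      by_cases ht : t = o
      · subst ht
        rw [Function.update_self] at hi
        rcases Finset.mem_insert.mp hi with rfl | hi
        · exact hv2
        · exact hv1 t i hi
      · rw [Function.update_of_ne ht] at hi
        exact hv1 t i hi
    · intro hv
      refine ⟨fun t i hi => ?_, ?_⟩
      · apply hv t i
        by_cases ht : t = o
        · subst ht
          rw [Function.update_self]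
          exact Finset.mem_insert_of_mem hi
        · rw [Function.update_of_ne ht]
          exact hi
      · apply hv o i₀
        rw [Function.update_self]
        exact Finset.mem_insert_self _ _
  have h3 : ∀ t, Function.update R o (insert i₀ (R o)) t ⊆ Finset.range n := by
    intro t
    by_cases ht : t = o
    · subst ht
      rw [Function.update_self]
      exact Finset.insert_subset hi₀ (hR t)
    · rw [Function.update_of_ne ht]
      exact hR t
  have h4 : (fun t => (Function.update R o (insert i₀ (R o)) t).card) =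
      (fun t => (R t).card) + Pi.single o 1 := by
    funext t
    by_cases ht : t = o
    · subst ht
      rw [Function.update_self, Finset.card_insert_of_notMem ho, Pi.add_apply, Pi.single_eq_same]
    · rw [Function.update_of_ne ht, Pi.add_apply, Pi.single_eq_of_ne ht, add_zero]
  rw [h2, h R hR, h _ h3, h4] at h1
  unfold ccM
  omega

/-- enlarging the sets does not change the image if the rank does not drop -/
theorem BCM_key [Module.Finite ℂ E] [Finite J] {Φ : τ → P → E →ₗ[ℂ] (J → ℂ)} {n : ℕ}
    {x : τ → ℕ → P} (h : UniM Φ n x) (o : τ) (i₀ : ℕ) (hi₀ : i₀ ∈ Finset.range n)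
    (R₁ R₂ : τ → Finset ℕ) (h12 : ∀ t, R₁ t ⊆ R₂ t) (hR₂ : ∀ t, R₂ t ⊆ Finset.range n)
    (ho : i₀ ∉ R₂ o)
    (hcc : ccM Φ o (fun t => (R₂ t).card) = ccM Φ o (fun t => (R₁ t).card)) :
    (KerS Φ R₂ x).map (Φ o (x o i₀)) = (KerS Φ R₁ x).map (Φ o (x o i₀)) := by
  apply Submodule.eq_of_le_of_finrank_eq
  · exact Submodule.map_mono (BCM_mono h12)
  · rw [BCM_card h o R₂ hR₂ i₀ hi₀ ho,
      BCM_card h o R₁ (fun t => (h12 t).trans (hR₂ t)) i₀ hi₀ (fun hh => ho (h12 o hh)), hcc]

/-- exchanging the points of one type -/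
theorem BCM_one [Module.Finite ℂ E] [Finite J] {Φ : τ → P → E →ₗ[ℂ] (J → ℂ)} {n : ℕ}
    {x : τ → ℕ → P} (h : UniM Φ n x) (o : τ) (i₀ : ℕ) (hi₀ : i₀ ∈ Finset.range n)
    (a : τ → ℕ) (hcc : ∀ t, 0 < a t → ccM Φ o (a + Pi.single t 1) = ccM Φ o a)
    (R : τ → Finset ℕ) (hR : ∀ t, R t ⊆ Finset.range n) (hRc : ∀ t, (R t).card = a t)
    (hRo : i₀ ∉ R o) (t : τ) (A A' : Finset ℕ) (hA : A ⊆ Finset.range n)
    (hA' : A' ⊆ Finset.range n) (hAc : A.card = a t) (hAc' : A'.card = a t)
    (hAo : t = o → i₀ ∉ A) (hAo' : t = o → i₀ ∉ A') :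
    (KerS Φ (Function.update R t A) x).map (Φ o (x o i₀)) =
      (KerS Φ (Function.update R t A') x).map (Φ o (x o i₀)) := by
  have hup : ∀ B : Finset ℕ, B ⊆ Finset.range n → ∀ s, Function.update R t B s ⊆ Finset.range n := by
    intro B hB s
    by_cases hs : s = t
    · subst hs
      rw [Function.update_self]
      exact hB
    · rw [Function.update_of_ne hs]
      exact hR s
  have hupo : ∀ B : Finset ℕ, (t = o → i₀ ∉ B) → i₀ ∉ Function.update R t B o := by
    intro B hB
    by_cases hs : o = t
    · subst hs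
      rw [Function.update_self]
      exact hB rfl
    · rw [Function.update_of_ne hs]
      exact hRo
  have hcard0 : ∀ B : Finset ℕ, B.card = a t →
      (fun s => (Function.update R t B s).card) = a := by
    intro B hB
    funext s
    by_cases hs : s = t
    · subst hs
      rw [Function.update_self]
      exact hB
    · rw [Function.update_of_ne hs]
      exact hRc s
  have hcard1 : ∀ B : Finset ℕ, B.card = a t + 1 →
      (fun s => (Function.update R t B s).card) = a + Pi.single t 1 := by
    intro B hB
    funext s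
    by_cases hs : s = t
    · subst hs
      rw [Function.update_self, Pi.add_apply, Pi.single_eq_same]
      exact hB
    · rw [Function.update_of_ne hs, Pi.add_apply, Pi.single_eq_of_ne hs, add_zero]
      exact hRc s
  have hsubs : ∀ B B' : Finset ℕ, B ⊆ B' → ∀ s, Function.update R t B s ⊆
      Function.update R t B' s := by
    intro B B' hB s
    by_cases hs : s = t
    · subst hs
      rw [Function.update_self, Function.update_self]
      exact hB
    · rw [Function.update_of_ne hs, Function.update_of_ne hs]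
  refine BCA_chain (fun B => (KerS Φ (Function.update R t B) x).map (Φ o (x o i₀)))
    (fun k => k ∈ Finset.range n ∧ (t = o → k ≠ i₀)) (a t) ?_ _ A A' rfl hAc hAc' ?_ ?_
  · intro B i j hB hi hj hG hGj
    have hpos : 0 < a t := by
      rw [← hB]
      exact Finset.card_pos.mpr ⟨i, hi⟩
    have hc : (insert j (B.erase i)).card = a t := by
      rw [Finset.card_insert_of_notMem (fun hh => hj (Finset.mem_of_mem_erase hh)),
        Finset.card_erase_of_mem hi]
      omega
    have hc2 : (insert j B).card = a t + 1 := by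
      rw [Finset.card_insert_of_notMem hj, hB]
    have hsub : insert j B ⊆ Finset.range n := by
      apply Finset.insert_subset hGj.1
      intro k hk
      exact (hG k hk).1
    have ho2 : t = o → i₀ ∉ insert j B := by
      intro hto hh
      rcases Finset.mem_insert.mp hh with hh | hh
      · exact hGj.2 hto hh.symm
      · exact (hG _ hh).2 hto rfl
    have k1 := BCM_key h o i₀ hi₀ (Function.update R t B) (Function.update R t (insert j B))
      (hsubs _ _ (Finset.subset_insert j B)) (hup _ hsub) (hupo _ ho2)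
      (by rw [hcard1 _ hc2, hcard0 _ hB, hcc t hpos])
    have k2 := BCM_key h o i₀ hi₀ (Function.update R t (insert j (B.erase i)))
      (Function.update R t (insert j B))
      (hsubs _ _ (Finset.insert_subset_insert j (Finset.erase_subset i B))) (hup _ hsub)
      (hupo _ ho2) (by rw [hcard1 _ hc2, hcard0 _ hc, hcc t hpos])
    exact k2.symm.trans k1
  · intro k hk
    exact ⟨hA hk, fun hto hh => hAo hto (hh ▸ hk)⟩
  · intro k hk
    exact ⟨hA' hk, fun hto hh => hAo' hto (hh ▸ hk)⟩

/-- the exchange argument -/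
theorem BCM_exchange [Module.Finite ℂ E] [Finite J] {Φ : τ → P → E →ₗ[ℂ] (J → ℂ)} {n : ℕ}
    {x : τ → ℕ → P} (h : UniM Φ n x) (o : τ) (i₀ : ℕ) (hi₀ : i₀ ∈ Finset.range n)
    (a : τ → ℕ) (hcc : ∀ t, 0 < a t → ccM Φ o (a + Pi.single t 1) = ccM Φ o a)
    (S S' : τ → Finset ℕ) (hS : ∀ t, S t ⊆ Finset.range n) (hS' : ∀ t, S' t ⊆ Finset.range n)
    (hSc : ∀ t, (S t).card = a t) (hSc' : ∀ t, (S' t).card = a t)
    (ho : i₀ ∉ S o) (ho' : i₀ ∉ S' o) :
    (KerS Φ S x).map (Φ o (x o i₀)) = (KerS Φ S' x).map (Φ o (x o i₀)) := by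
  have key : ∀ T : Finset τ, (KerS Φ (fun t => if t ∈ T then S' t else S t) x).map
      (Φ o (x o i₀)) = (KerS Φ S x).map (Φ o (x o i₀)) := by
    intro T
    induction T using Finset.induction_on with
    | empty =>
      have h1 : (fun t => if t ∈ (∅ : Finset τ) then S' t else S t) = S := by
        funext t
        simp
      rw [h1]
    | insert t T ht ih =>
      rw [← ih]
      set R : τ → Finset ℕ := fun s => if s ∈ T then S' s else S s with hRdef
      have hR : ∀ s, R s ⊆ Finset.range n := by
        intro s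
        simp only [hRdef]
        split_ifs
        · exact hS' s
        · exact hS s
      have hRc : ∀ s, (R s).card = a s := by
        intro s
        simp only [hRdef]
        split_ifs
        · exact hSc' s
        · exact hSc s
      have hRo : i₀ ∉ R o := by
        simp only [hRdef]
        split_ifs
        · exact ho'
        · exact ho
      have e1 : (fun s => if s ∈ insert t T then S' s else S s) = Function.update R t (S' t) := by
        funext s
        by_cases hs : s = t
        · subst hs
          rw [Function.update_self]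
          simp
        · rw [Function.update_of_ne hs]
          simp only [hRdef, Finset.mem_insert, hs, false_or]
      have e2 : R = Function.update R t (S t) := by
        funext s
        by_cases hs : s = t
        · subst hs
          rw [Function.update_self]
          simp only [hRdef, ht, if_false]
        · rw [Function.update_of_ne hs]
      rw [e1]
      have := BCM_one h o i₀ hi₀ a hcc R hR hRc hRo t (S' t) (S t) (hS' t) (hS t) (hSc' t) (hSc t)
        (fun hto => hto ▸ ho') (fun hto => hto ▸ ho)
      rw [this, ← e2]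
  have h1 := key Finset.univ
  have h2 : (fun t => if t ∈ (Finset.univ : Finset τ) then S' t else S t) = S' := by
    funext t
    simp
  rw [h2] at h1
  exact h1.symm

/-- a polynomial path starting at a uniform configuration is uniform for almost all parameters -/
theorem BCM_curve (hT1 : T1_stmt) [Module.Finite ℂ E] [Finite J]
    {Φ : τ → P → E →ₗ[ℂ] (J → ℂ)} {n : ℕ} (x : ℂ → τ → ℕ → P)
    (hx : ∀ t i v j, PolyFun (fun z => Φ t (x z t i) v j))
    (h0 : UniM Φ n (x 0)) : {z : ℂ | ¬ UniM Φ n (x z)}.Finite := by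
  classical
  have key : ∀ R : τ → Finset ℕ, (∀ t, R t ⊆ Finset.range n) →
      {z : ℂ | ¬ finrank ℂ ↥(KerS Φ R (x z)) ≤ dmM Φ (fun t => (R t).card)}.Finite := by
    intro R hR
    let B : ℂ → E →ₗ[ℂ] ((τ × Fin n) × J → ℂ) := fun z =>
      LinearMap.pi (fun p : (τ × Fin n) × J =>
        if (p.1.2 : ℕ) ∈ R p.1.1 then (LinearMap.proj p.2) ∘ₗ (Φ p.1.1 (x z p.1.1 p.1.2)) else 0)
    have hB : ∀ z v t (i : Fin n) j, B z v ((t, i), j) =
        if (i : ℕ) ∈ R t then Φ t (x z t i) v j else 0 := by
      intro z v t i j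
      change (if (i : ℕ) ∈ R t then (LinearMap.proj j) ∘ₗ (Φ t (x z t i)) else 0) v = _
      by_cases hi : (i : ℕ) ∈ R t
      · rw [if_pos hi, if_pos hi]
        rfl
      · rw [if_neg hi, if_neg hi]
        rfl
    have hker : ∀ z, LinearMap.ker (B z) = KerS Φ R (x z) := by
      intro z
      ext v
      rw [LinearMap.mem_ker, mem_KerS]
      constructor
      · intro hv t i hi
        funext j
        have hin : i < n := Finset.mem_range.mp (hR t hi)
        have h1 := congrFun hv ((t, ⟨i, hin⟩), j)
        rw [hB, if_pos hi] at h1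
        exact h1
      · intro hv
        funext p
        obtain ⟨⟨t, i⟩, j⟩ := p
        rw [hB]
        by_cases hi : (i : ℕ) ∈ R t
        · rw [if_pos hi, hv t i hi]
          rfl
        · rw [if_neg hi]
          rfl
    have hpoly : ∀ v p, PolyFun (fun z => B z v p) := by
      rintro v ⟨⟨t, i⟩, j⟩
      by_cases hi : (i : ℕ) ∈ R t
      · have h1 : (fun z => B z v ((t, i), j)) = fun z => Φ t (x z t i) v j := by
          funext z
          rw [hB, if_pos hi]
        rw [h1]
        exact hx t i v j
      · have h1 : (fun z => B z v ((t, i), j)) = fun _ => (0 : ℂ) := by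
          funext z
          rw [hB, if_neg hi]
        rw [h1]
        exact PolyFun.const 0
    have h2 := hT1 B hpoly (dmM Φ (fun t => (R t).card)) 0 (by rw [hker, h0 R hR])
    refine h2.subset ?_
    intro z hz
    change ¬ finrank ℂ ↥(LinearMap.ker (B z)) ≤ _
    rw [hker]
    exact hz
  have hfin : (⋃ R ∈ Fintype.piFinset (fun _ : τ => (Finset.range n).powerset),
      {z : ℂ | ¬ finrank ℂ ↥(KerS Φ R (x z)) ≤ dmM Φ (fun t => (R t).card)}).Finite := by
    apply Set.Finite.biUnion (Finset.finite_toSet _)
    intro R hR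
    apply key R
    intro t
    have := Fintype.mem_piFinset.mp hR t
    exact Finset.mem_powerset.mp this
  refine hfin.subset ?_
  intro z hz
  change ¬ UniM Φ n (x z) at hz
  by_contra hcon
  apply hz
  intro R hR
  have h1 : finrank ℂ ↥(KerS Φ R (x z)) ≤ dmM Φ (fun t => (R t).card) := by
    by_contra hc
    apply hcon
    rw [Set.mem_iUnion₂]
    exact ⟨R, Fintype.mem_piFinset.mpr (fun t => Finset.mem_powerset.mpr (hR t)), hc⟩
  exact le_antisymm h1 (BCM_ge Φ (x z) R)

end

/-- **BCM** -/
theorem BCM (hT1 : T1_stmt) : BCM_stmt := by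
  intro τ E P J _ _ _ _ _ _ _ _ Φ o V hdef n x a hU ha hcc hlt S hS hSc f hf hVf
  classical
  have hex : ∀ t, ∃ T : Finset ℕ, T ⊆ Finset.range n \ S t ∧ T.card = a t + 1 := by
    intro t
    apply Finset.exists_subset_card_eq
    have h1 := Finset.card_sdiff_add_card_eq_card (hS t)
    rw [Finset.card_range, hSc t] at h1
    have h2 := ha t
    omega
  choose T hT hTc using hex
  have hne : ∀ t, ∃ e, e ∈ T t := by
    intro t
    have : (T t).Nonempty := by
      rw [← Finset.card_pos, hTc t]
      omega
    exact this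
  choose e he using hne
  set S' : τ → Finset ℕ := fun t => (T t).erase (e t) with hS'def
  have hS'c : ∀ t, (S' t).card = a t := by
    intro t
    rw [hS'def]
    simp only
    rw [Finset.card_erase_of_mem (he t), hTc t]
    rfl
  have hS'T : ∀ t i, i ∈ S' t → i ∈ Finset.range n \ S t := by
    intro t i hi
    exact hT t (Finset.mem_of_mem_erase hi)
  have hS' : ∀ t, S' t ⊆ Finset.range n := fun t i hi => (Finset.mem_sdiff.mp (hS'T t i hi)).1
  have hSS' : ∀ t i, i ∈ S' t → i ∉ S t := fun t i hi => (Finset.mem_sdiff.mp (hS'T t i hi)).2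
  set i₀ : ℕ := e o with hi₀def
  have hi₀T := Finset.mem_sdiff.mp (hT o (he o))
  have hi₀ : i₀ ∈ Finset.range n := hi₀T.1
  have hoS : i₀ ∉ S o := hi₀T.2
  have hoS' : i₀ ∉ S' o := Finset.notMem_erase (e o) (T o)
  have hfK : ∀ t, ∀ i ∈ S t, Φ t (x t i) f = 0 := mem_KerS.mp hf
  -- the functional
  have hr1 := BCM_card hU o S' hS' i₀ hi₀ hoS'
  have hr2 := BCM_card hU o (fun _ => ∅) (fun t => Finset.empty_subset _) i₀ hi₀
    (Finset.notMem_empty _)
  have hc1 : (fun t => (S' t).card) = a := funext hS'c
  have hc0 : (fun _ : τ => (∅ : Finset ℕ).card) = (0 : τ → ℕ) := by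
    funext t
    simp
  rw [hc1] at hr1
  rw [hc0] at hr2
  have hex2 : ∃ g : E, Φ o (x o i₀) g ∉ (KerS Φ S' x).map (Φ o (x o i₀)) := by
    by_contra hcon
    push Not at hcon
    have hle : (KerS Φ (fun _ => ∅) x).map (Φ o (x o i₀)) ≤
        (KerS Φ S' x).map (Φ o (x o i₀)) := by
      rintro w ⟨g, _, rfl⟩
      exact hcon g
    have := Submodule.finrank_mono hle
    rw [hr1, hr2] at this
    omega
  obtain ⟨g, hg⟩ := hex2
  obtain ⟨l, hl1, hl2⟩ := Submodule.exists_le_ker_of_notMem hg
  obtain ⟨α, H, hα0, hα1, hH1, hH2, hH3⟩ := hdef f hVf (x o i₀) l ⟨g, hl1⟩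
  -- the deformed configuration
  let xx : ℂ → τ → ℕ → P := fun z t i => if i ∈ S t then α z (x t i) else x t i
  have hxx0 : xx 0 = x := by
    funext t i
    change (if i ∈ S t then α 0 (x t i) else x t i) = x t i
    rw [hα0, ite_self]
  have hcurve := BCM_curve hT1 (Φ := Φ) (n := n) xx
    (by
      intro t i v j
      by_cases hi : i ∈ S t
      · have h1 : (fun z => Φ t (xx z t i) v j) = fun z => Φ t (α z (x t i)) v j := by
          funext z
          change Φ t (if i ∈ S t then α z (x t i) else x t i) v j = _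
          rw [if_pos hi]
        rw [h1]
        exact hα1 t (x t i) v j
      · have h1 : (fun z => Φ t (xx z t i) v j) = fun _ => Φ t (x t i) v j := by
          funext z
          change Φ t (if i ∈ S t then α z (x t i) else x t i) v j = _
          rw [if_neg hi]
        rw [h1]
        exact PolyFun.const _)
    (by rw [hxx0]; exact hU)
  have hzero : ∀ z, UniM Φ n (xx z) → l (Φ o (x o i₀) (H z f)) = 0 := by
    intro z hz
    have h1 := BCM_exchange hz o i₀ hi₀ a hcc S S' hS hS' hSc hS'c hoS hoS'
    have hyo : xx z o i₀ = x o i₀ := by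
      change (if i₀ ∈ S o then α z (x o i₀) else x o i₀) = x o i₀
      rw [if_neg hoS]
    have h2 : KerS Φ S' (xx z) = KerS Φ S' x := by
      ext v
      rw [mem_KerS, mem_KerS]
      have h4 : ∀ t, ∀ i ∈ S' t, xx z t i = x t i := by
        intro t i hi
        change (if i ∈ S t then α z (x t i) else x t i) = x t i
        rw [if_neg (hSS' t i hi)]
      constructor
      · intro hv t i hi
        have h3 := hv t i hi
        rwa [h4 t i hi] at h3
      · intro hv t i hi
        rw [h4 t i hi]
        exact hv t i hi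
    rw [hyo, h2] at h1
    have h5 : H z f ∈ KerS Φ S (xx z) := by
      rw [mem_KerS]
      intro t i hi
      have h4 : xx z t i = α z (x t i) := by
        change (if i ∈ S t then α z (x t i) else x t i) = α z (x t i)
        rw [if_pos hi]
      rw [h4]
      exact hH2 t (x t i) z (hfK t i hi)
    have h6 : Φ o (x o i₀) (H z f) ∈ (KerS Φ S' x).map (Φ o (x o i₀)) := by
      rw [← h1]
      exact Submodule.mem_map_of_mem h5
    exact hl2 h6
  have hpoly : PolyFun (fun z => l (Φ o (x o i₀) (H z f))) := by
    have hJ : Fintype J := Fintype.ofFinite J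
    have h1 : (fun z => l (Φ o (x o i₀) (H z f))) = fun z =>
        ∑ j ∈ (Finset.univ : Finset J), Φ o (x o i₀) (H z f) j *
          l (fun k => if j = k then 1 else 0) := by
      funext z
      rw [LinearMap.pi_apply_eq_sum_univ l (Φ o (x o i₀) (H z f))]
      rfl
    rw [h1]
    exact PolyFun.sum _ (fun j _ => (hH1 (x o i₀) j).mul (PolyFun.const _))
  exact hH3 (PolyFun.eq_zero_of_cofinite hpoly (hcurve.subset (fun z hz hc => hz (hzero z hc))) 1)

end Pool.Agent.SG
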